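import Pool.Agent.Helper21K9.Frechet.Ext

set_option autoImplicit false

/-!
# Fréchet algebras without non-zero injective Fréchet modules: formal power series

Let `A₀ = z ℂ⟦z⟧` be the algebra of formal power series without constant term, with the topology of
coefficientwise convergence. It is a Fréchet algebra and no non-zero Fréchet `A₀`-module is
injective. If one prefers algebras with unit and unital modules: no non-zero unital Fréchet module
over the Fréchet algebra `ℂ⟦z⟧` is injective in the category of unital Fréchet modules.
-/

namespace Pool.Agent.Results.MP_5446c4_an.PowerSeriesModules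

open Pool.Agent.Helper21K9.Frechet
open Filter Topology
open scoped PowerSeries.WithPiTopology

universe u

instance frechetAlgebra_powerSeries : FrechetAlgebra (PowerSeries ℂ) where
  toIsUniformAddGroup := inferInstance
  toContinuousSMul := by
    have : ContinuousSMul ℂ ((Unit →₀ ℕ) → ℂ) := inferInstance
    exact this
  toLocallyConvexSpace := by
    have : LocallyConvexSpace ℝ ((Unit →₀ ℕ) → ℂ) := inferInstance
    exact this
  toCompleteSpace := inferInstance
  toMetrizableSpace := by
    have : TopologicalSpace.MetrizableSpace ((Unit →₀ ℕ) → ℂ) := inferInstance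
    exact this
  toIsScalarTower := inferInstance
  toSMulCommClass := inferInstance
  toContinuousMul := inferInstance

/-- The constant coefficient as a character. -/
noncomputable def char0 : PowerSeries ℂ →ₐ[ℂ] ℂ where
  toRingHom := PowerSeries.constantCoeff
  commutes' r := by simp

lemma char0_apply (f : PowerSeries ℂ) : char0 f = PowerSeries.constantCoeff f := rfl

lemma continuous_char0 : Continuous char0 :=
  PowerSeries.WithPiTopology.continuous_constantCoeff ℂ

/-- The Fréchet algebra `z ℂ⟦z⟧` of formal power series without constant term. -/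
abbrev MaxIdeal : Type := kerChar char0

/-- `f ↦ (f - f(0))/z` -/
noncomputable def shift : PowerSeries ℂ →ₗ[ℂ] PowerSeries ℂ where
  toFun f := PowerSeries.mk fun n => PowerSeries.coeff (n + 1) f
  map_add' f g := by ext n; simp
  map_smul' c f := by ext n; simp

lemma shift_spec (f : PowerSeries ℂ) :
    f = PowerSeries.X * shift f + PowerSeries.C (PowerSeries.constantCoeff f) := by
  ext n
  rcases n with _ | n
  · simp
  · simp [shift, PowerSeries.coeff_succ_X_mul]

lemma shift_mul (f g : PowerSeries ℂ) : shift (f * g) = f * shift g + char0 g • shift f := by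
  have h1 := shift_spec (f * g)
  have h2 := shift_spec f
  have h3 := shift_spec g
  have h4 : PowerSeries.X * shift (f * g) = PowerSeries.X * (f * shift g + char0 g • shift f) := by
    have h5 : PowerSeries.X * shift (f * g) =
        f * g - PowerSeries.C (PowerSeries.constantCoeff (f * g)) := by
      rw [eq_sub_iff_add_eq]; exact h1.symm
    have h6 : PowerSeries.X * shift f = f - PowerSeries.C (PowerSeries.constantCoeff f) := by
      rw [eq_sub_iff_add_eq]; exact h2.symm
    have h7 : PowerSeries.X * shift g = g - PowerSeries.C (PowerSeries.constantCoeff g) := by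
      rw [eq_sub_iff_add_eq]; exact h3.symm
    rw [h5, mul_add, ← mul_assoc, mul_comm PowerSeries.X f, mul_assoc, h7, mul_smul_comm, h6,
      char0_apply, PowerSeries.smul_eq_C_mul, map_mul, map_mul]
    ring
  exact PowerSeries.X_mul_cancel h4

lemma continuous_shift : Continuous shift := by
  rw [continuous_iff_continuousAt]
  intro f
  rw [ContinuousAt, PowerSeries.WithPiTopology.tendsto_iff_coeff_tendsto]
  intro d
  have h : ∀ g : PowerSeries ℂ, PowerSeries.coeff d (shift g) = PowerSeries.coeff (d + 1) g := by
    intro g
    simp [shift]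
  simp only [h]
  exact (PowerSeries.WithPiTopology.continuous_coeff ℂ (d + 1)).tendsto f

lemma small_powers {U : Set (PowerSeries ℂ)} (hU : U ∈ 𝓝 (0 : PowerSeries ℂ)) :
    ∃ N : ℕ, ∀ n, N ≤ n → ∀ c : ℂ, c • (PowerSeries.X : PowerSeries ℂ) ^ n ∈ U := by
  have ht : Tendsto (fun q : ℕ × ℂ => q.2 • (PowerSeries.X : PowerSeries ℂ) ^ q.1)
      (atTop ×ˢ ⊤) (𝓝 0) := by
    rw [PowerSeries.WithPiTopology.tendsto_iff_coeff_tendsto]
    intro d
    refine tendsto_const_nhds.congr' ?_
    have : ∀ᶠ n : ℕ in atTop, d < n := eventually_gt_atTop d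
    filter_upwards [this.prod_inl ⊤] with q hq
    rw [map_zero, map_smul, PowerSeries.coeff_X_pow, if_neg (by omega), smul_zero]
  have h := ht.eventually hU
  rw [eventually_prod_iff] at h
  obtain ⟨P, hP, Q, hQ, h⟩ := h
  obtain ⟨N, hN⟩ := eventually_atTop.1 hP
  refine ⟨N, fun n hn c => h (hN n hn) ?_⟩
  rw [eventually_top] at hQ
  exact hQ c

theorem main {X : Type u} [AddCommGroup X] [Module ℂ X] [UniformSpace X] [FrechetSpace X]
    (M : FrechetModule (PowerSeries ℂ) X) (hM : IsInjectiveUnital M) : Subsingleton X := by
  -- divisibility by `z`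
  have hdiv : ∀ x0 : X, ∃ x1 : X, M.act PowerSeries.X x1 = x0 := by
    intro x0
    let N : FrechetModule (PowerSeries ℂ) ℂ :=
      { act := (LinearMap.mul ℂ ℂ).comp char0.toLinearMap
        mul_act := fun a b x => by
          simp only [LinearMap.comp_apply, AlgHom.toLinearMap_apply, map_mul,
            LinearMap.mul_apply']
          ring
        continuous_act := (continuous_char0.comp continuous_fst).mul continuous_snd }
    have hN : IsUnital N := fun x => by
      change char0 1 * x = x
      rw [map_one, one_mul]
    let B : PowerSeries ℂ →ₗ[ℂ] ℂ →ₗ[ℂ] X := LinearMap.mk₂ ℂ (fun f c => c • M.act (shift f) x0)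
      (fun f g c => by rw [map_add, map_add, LinearMap.add_apply, smul_add])
      (fun a f c => by
        rw [map_smul, map_smul, LinearMap.smul_apply, smul_comm])
      (fun f c d => by rw [add_smul])
      (fun a f c => by rw [smul_assoc])
    have hBdef : ∀ f c, B f c = c • M.act (shift f) x0 := fun f c => rfl
    obtain ⟨φ, hφ⟩ := exists_phi M hM N hN B (by
        intro f g c
        change c • M.act (shift (f * g)) x0 = M.act f (c • M.act (shift g) x0)
          + (char0 g * c) • M.act (shift f) x0
        rw [shift_mul, map_add, map_smul, LinearMap.add_apply, LinearMap.smul_apply, smul_add,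
          M.mul_act, map_smul, smul_smul, mul_comm c]) (by
        have h1 : Continuous fun q : PowerSeries ℂ × ℂ => M.act (shift q.1) x0 :=
          M.continuous_act.comp ((continuous_shift.comp continuous_fst).prodMk continuous_const)
        exact continuous_snd.smul h1)
    refine ⟨φ 1, ?_⟩
    have h := hφ PowerSeries.X 1
    have h2 : N.act PowerSeries.X 1 = 0 := by
      change char0 PowerSeries.X * 1 = 0
      rw [char0_apply, PowerSeries.constantCoeff_X, zero_mul]
    have h3 : shift PowerSeries.X = 1 := by
      ext n
      simp only [shift, LinearMap.coe_mk, AddHom.coe_mk, PowerSeries.coeff_mk,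
        PowerSeries.coeff_X, PowerSeries.coeff_one]
      simp
    rw [h2, map_zero, add_zero, hBdef, one_smul, h3, hM.1] at h
    exact h
  have hdivn : ∀ n : ℕ, ∀ x0 : X, ∃ x1 : X, M.act (PowerSeries.X ^ n) x1 = x0 := by
    intro n
    induction n with
    | zero => intro x0; exact ⟨x0, by rw [pow_zero, hM.1]⟩
    | succ n ih =>
      intro x0
      obtain ⟨x1, h1⟩ := ih x0
      obtain ⟨x2, h2⟩ := hdiv x1
      exact ⟨x2, by rw [pow_succ, M.mul_act, h2, h1]⟩
  -- every element lies in every neighbourhood of zero
  have key : ∀ x0 : X, ∀ W ∈ 𝓝 (0 : X), x0 ∈ W := by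
    intro x0 W hW
    have hc : Tendsto (fun q : PowerSeries ℂ × X => M.act q.1 q.2) (𝓝 (0, 0)) (𝓝 0) := by
      have := M.continuous_act.tendsto (0, 0)
      simpa using this
    have h := hc.eventually hW
    rw [nhds_prod_eq, eventually_prod_iff] at h
    obtain ⟨P, hP, Q, hQ, h⟩ := h
    obtain ⟨N, hN⟩ := small_powers hP
    obtain ⟨x1, hx1⟩ := hdivn N x0
    -- a small multiple of `x1` lies in the neighbourhood `Q`
    have hs : Tendsto (fun t : ℂ => t • x1) (𝓝[≠] 0) (𝓝 0) := by
      have : Continuous fun t : ℂ => t • x1 := continuous_id.smul continuous_const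
      have h0 := this.tendsto 0
      rw [zero_smul] at h0
      exact h0.mono_left nhdsWithin_le_nhds
    obtain ⟨t, ht, ht0⟩ := ((hs.eventually hQ).and self_mem_nhdsWithin).exists
    have ht0 : t ≠ 0 := ht0
    have := h (hN N le_rfl t⁻¹) ht
    simp only [map_smul, LinearMap.smul_apply, smul_smul, mul_inv_cancel₀ ht0, one_smul] at this
    rw [hx1] at this
    exact this
  refine ⟨fun x y => ?_⟩
  rw [← sub_eq_zero]
  by_contra hne
  have hW : {x - y}ᶜ ∈ 𝓝 (0 : X) := isOpen_compl_singleton.mem_nhds (by
    simpa using Ne.symm hne)
  exact key (x - y) _ hW rfl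

/-- **A Fréchet algebra without non-zero injective Fréchet modules.** The algebra
`A₀ = z ℂ⟦z⟧` is a Fréchet algebra and every injective Fréchet `A₀`-module is zero. Moreover
`ℂ⟦z⟧` is a Fréchet algebra (with unit) and every injective object of the category of unital
Fréchet `ℂ⟦z⟧`-modules is zero. -/
theorem result :
    (FrechetAlgebra MaxIdeal ∧
      ∀ (X : Type u) [AddCommGroup X] [Module ℂ X] [UniformSpace X] [FrechetSpace X]
        (M : FrechetModule MaxIdeal X), IsInjective M → Subsingleton X) ∧
    (FrechetAlgebra (PowerSeries ℂ) ∧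
      ∀ (X : Type u) [AddCommGroup X] [Module ℂ X] [UniformSpace X] [FrechetSpace X]
        (M : FrechetModule (PowerSeries ℂ) X), IsInjectiveUnital M → Subsingleton X) := by
  refine ⟨⟨frechetAlgebra_kerChar char0 continuous_char0, ?_⟩, frechetAlgebra_powerSeries, ?_⟩
  · intro X _ _ _ _ M hM
    exact main _ (kernel_injective char0 continuous_char0 M hM)
  · intro X _ _ _ _ M hM
    exact main M hM

end Pool.Agent.Results.MP_5446c4_an.PowerSeriesModules
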